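import Pool.Agent.Helper733.Chain

/-!
The constants `γ(d;k,s)` comparing the `k`-contents and the `s`-contents of convex bodies are
finite for all `1 ≤ k ≤ s ≤ d`; in particular for every uncovered triple.

The inequality between the face contents of polytopes (with a constant depending on `k` and `s`
only) is taken from the file `Pool.Agent.Helper733.Chain` (weighted joints theorem plus a geometric
inequality for the facets of a polytope); here it is carried over to convex bodies.
-/

set_option autoImplicit false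

namespace Pool.Agent.Results.MP_617eb0_gt.GammaFinite

open Pool.Agent.Helper733 Filter Topology

/-- A `d`-dimensional convex body in `ℝ^d`: a compact convex set with nonempty interior. -/
def IsBody (d : ℕ) (K : Set (EuclideanSpace ℝ (Fin d))) : Prop :=
  IsCompact K ∧ Convex ℝ K ∧ (interior K).Nonempty

/-- `P n → K` where every `P n` is a `d`-polytope and the convergence is the one of the Hausdorff
metric. -/
def ConvergesTo {d : ℕ} (P : ℕ → Set (EuclideanSpace ℝ (Fin d)))
    (K : Set (EuclideanSpace ℝ (Fin d))) : Prop :=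
  (∀ n, IsPolytope d (P n)) ∧ Tendsto (fun n => Metric.hausdorffEDist (P n) K) atTop (𝓝 0)

/-- The `k`-content `ζ_k(K)` of a convex body `K`: the infimum of `liminf ζ_k(P n)` over all
sequences of `d`-polytopes `P n` converging to `K`. Here `ζ_k(P n)` is the sum of the
`k`-dimensional volumes of the `k`-faces of `P n`. -/
noncomputable def content {d : ℕ} (k : ℕ) (K : Set (EuclideanSpace ℝ (Fin d))) : ENNReal :=
  ⨅ (P : ℕ → Set (EuclideanSpace ℝ (Fin d))) (_ : ConvergesTo P K),
    liminf (fun n => faceContent k (P n)) atTop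

/-- The class `C_k^d` of the `d`-dimensional convex bodies with finite `k`-content. -/
def bodies (d k : ℕ) : Set (Set (EuclideanSpace ℝ (Fin d))) :=
  {K | IsBody d K ∧ content k K < ⊤}

/-- `γ(d;k,s)`: the least `γ ∈ [0,∞]` with `ζ_s(K)^(1/s) ≤ γ ζ_k(K)^(1/k)` for all `K` in
`C_k^d`. -/
noncomputable def gammaConst (d k s : ℕ) : ENNReal :=
  sInf {γ : ENNReal | ∀ K ∈ bodies d k,
    content s K ^ ((1 : ℝ) / s) ≤ γ * content k K ^ ((1 : ℝ) / k)}

/-- the bound with a constant depending on `k` and `s` only -/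
lemma body_bound {d k s : ℕ} (hk : 1 ≤ k) (hks : k ≤ s) (K : Set (EuclideanSpace ℝ (Fin d))) :
    content s K ^ ((1 : ℝ) / s) ≤ (Chain.chainC k (s - k) + 1) * content k K ^ ((1 : ℝ) / k) := by
  have hkpos : (0 : ℝ) < k := by exact_mod_cast hk
  have hspos : (0 : ℝ) < s := by exact_mod_cast (lt_of_lt_of_le hk hks)
  set C : ENNReal := Chain.chainC k (s - k) + 1 with hC
  have hC0 : C ≠ 0 := by
    rw [hC]
    simp
  have hCtop : C ≠ ⊤ := by
    rw [hC]
    exact ENNReal.add_ne_top.mpr ⟨(Chain.chainC_lt_top _ _).ne, ENNReal.one_ne_top⟩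
  -- the monotone continuous change of variables
  let g : ENNReal → ENNReal := fun x => (C * x ^ ((1 : ℝ) / k)) ^ (s : ℝ)
  have hgmono : Monotone g := by
    intro a b hab
    have h1 : a ^ ((1 : ℝ) / k) ≤ b ^ ((1 : ℝ) / k) := ENNReal.rpow_le_rpow hab (by positivity)
    exact ENNReal.rpow_le_rpow (by gcongr) hspos.le
  have hgcont : Continuous g := by
    have h1 : Continuous fun x : ENNReal => x ^ ((1 : ℝ) / k) := ENNReal.continuous_rpow_const
    have h2 : Continuous fun x : ENNReal => C * x := ENNReal.continuous_const_mul hCtop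
    have h3 : Continuous fun x : ENNReal => x ^ (s : ℝ) := ENNReal.continuous_rpow_const
    exact h3.comp (h2.comp h1)
  have hpoly : ∀ P : Set (EuclideanSpace ℝ (Fin d)), IsPolytope d P →
      faceContent s P ≤ g (faceContent k P) := by
    intro P hP
    have h := Chain.chain P hP k hk (s - k)
    rw [Nat.add_sub_cancel' hks] at h
    have h2 : faceContent s P ^ ((1 : ℝ) / s) ≤ C * faceContent k P ^ ((1 : ℝ) / k) := by
      refine h.trans ?_
      rw [hC]
      gcongr
      exact le_self_add
    have h3 : (faceContent s P ^ ((1 : ℝ) / s)) ^ (s : ℝ) ≤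
        (C * faceContent k P ^ ((1 : ℝ) / k)) ^ (s : ℝ) := ENNReal.rpow_le_rpow h2 hspos.le
    rwa [← ENNReal.rpow_mul, one_div_mul_cancel hspos.ne', ENNReal.rpow_one] at h3
  have hseq : ∀ P : ℕ → Set (EuclideanSpace ℝ (Fin d)), ConvergesTo P K →
      content s K ≤ g (liminf (fun n => faceContent k (P n)) atTop) := by
    intro P hP
    have h1 : content s K ≤ liminf (fun n => faceContent s (P n)) atTop :=
      iInf₂_le (f := fun (P : ℕ → Set (EuclideanSpace ℝ (Fin d))) (_ : ConvergesTo P K) =>
        liminf (fun n => faceContent s (P n)) atTop) P hP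
    refine h1.trans ?_
    have h2 : liminf (fun n => faceContent s (P n)) atTop ≤
        liminf (fun n => g (faceContent k (P n))) atTop :=
      liminf_le_liminf (Eventually.of_forall fun n => hpoly _ (hP.1 n))
    refine h2.trans (le_of_eq ?_)
    exact (hgmono.map_liminf_of_continuousAt (fun n => faceContent k (P n))
      hgcont.continuousAt).symm
  have hmain : content s K ≤ g (content k K) := by
    by_cases hne : ∃ P : ℕ → Set (EuclideanSpace ℝ (Fin d)), ConvergesTo P K
    · obtain ⟨P0, hP0⟩ := hne
      have hnonempty : Nonempty {P : ℕ → Set (EuclideanSpace ℝ (Fin d)) // ConvergesTo P K} :=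
        ⟨⟨P0, hP0⟩⟩
      have h1 : content k K = ⨅ P : {P : ℕ → Set (EuclideanSpace ℝ (Fin d)) // ConvergesTo P K},
          liminf (fun n => faceContent k (P.1 n)) atTop := by
        unfold content
        rw [iInf_subtype']
      rw [h1, hgmono.map_iInf_of_continuousAt hgcont.continuousAt]
      · exact le_iInf fun P => hseq P.1 P.2
      · show g ⊤ = ⊤
        show (C * (⊤ : ENNReal) ^ ((1 : ℝ) / k)) ^ (s : ℝ) = ⊤
        rw [ENNReal.top_rpow_of_pos (by positivity), ENNReal.mul_top hC0,
          ENNReal.top_rpow_of_pos hspos]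
    · have h1 : content k K = ⊤ := by
        unfold content
        exact iInf₂_eq_top.mpr fun P hP => absurd ⟨P, hP⟩ hne
      have h2 : g ⊤ = ⊤ := by
        show (C * (⊤ : ENNReal) ^ ((1 : ℝ) / k)) ^ (s : ℝ) = ⊤
        rw [ENNReal.top_rpow_of_pos (by positivity), ENNReal.mul_top hC0,
          ENNReal.top_rpow_of_pos hspos]
      rw [h1, h2]
      exact le_top
  have h5 : content s K ^ ((1 : ℝ) / s) ≤ (g (content k K)) ^ ((1 : ℝ) / s) :=
    ENNReal.rpow_le_rpow hmain (by positivity)
  refine h5.trans (le_of_eq ?_)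
  show ((C * content k K ^ ((1 : ℝ) / k)) ^ (s : ℝ)) ^ ((1 : ℝ) / s) = _
  rw [← ENNReal.rpow_mul, mul_one_div_cancel hspos.ne', ENNReal.rpow_one]

/-- `γ(d;k,s) < ∞` for all `1 ≤ k ≤ s ≤ d`; in particular for every uncovered triple. -/
theorem result : ∀ d k s : ℕ, 1 ≤ k → k ≤ s → s ≤ d → gammaConst d k s < ⊤ := by
  intro d k s hk hks _
  refine lt_of_le_of_lt (sInf_le ?_) (?_ : Chain.chainC k (s - k) + 1 < ⊤)
  · intro K _
    exact body_bound hk hks K
  · exact ENNReal.add_lt_top.mpr ⟨Chain.chainC_lt_top _ _, ENNReal.one_lt_top⟩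

end Pool.Agent.Results.MP_617eb0_gt.GammaFinite
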